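import Pool.Agent.Y517.NT.Geo

/-!
# NT-CHAIN: the chain rule for `F (f, g)` on a manifold
-/

set_option autoImplicit false

open Set Filter Topology
open scoped Manifold ContDiff

noncomputable section

namespace Pool.Agent.Y232.NT.Chain

open Pool.Agent.Y501.SY

theorem t_CHAIN : Pool.Agent.Y517.NT.S_CHAIN := by
  intro d X _ _ _ F f g hF hf hg
  have hpair : ContMDiff (𝓡 d) 𝓘(ℝ, ℝ × ℝ) ∞ (fun x : X => (f x, g x)) := hf.prodMk_space hg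
  have hFm : ContMDiff 𝓘(ℝ, ℝ × ℝ) 𝓘(ℝ, ℝ) ∞ F := hF.contMDiff
  refine ⟨hFm.comp hpair, ?_⟩
  intro x v
  have hfd : MDifferentiableAt (𝓡 d) 𝓘(ℝ, ℝ) f x := (hf x).mdifferentiableAt (by simp)
  have hgd : MDifferentiableAt (𝓡 d) 𝓘(ℝ, ℝ) g x := (hg x).mdifferentiableAt (by simp)
  have hFd : DifferentiableAt ℝ F (f x, g x) := (hF.differentiable (by simp)) _
  have h1 : HasMFDerivAt (𝓡 d) 𝓘(ℝ, ℝ × ℝ) (fun x : X => (f x, g x)) x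
      ((mfderiv (𝓡 d) 𝓘(ℝ, ℝ) f x).prod (mfderiv (𝓡 d) 𝓘(ℝ, ℝ) g x)) :=
    ⟨hfd.hasMFDerivAt.1.prodMk hgd.hasMFDerivAt.1, hfd.hasMFDerivAt.2.prodMk hgd.hasMFDerivAt.2⟩
  have h2 := HasMFDerivAt.comp x hFd.hasFDerivAt.hasMFDerivAt h1
  have h3 := h2.mfderiv
  unfold dd
  have h4 := congrArg (fun L => L v) h3
  exact h4

end Pool.Agent.Y232.NT.Chain
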